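import Mathlib

/-!
# Interface for the endgame of the even case (MP_9508c8)

`d : Fin r → K` are the roots (with multiplicity) of `G`, `f = G ^ 2`, `k = 2 r`, `w = r - m`.
`EE d = ∏ (1 + d_i X)`, `hf d n = h_n(f)` is the coefficient of `X ^ n` in `1 / E_f`.
-/

set_option autoImplicit false

namespace Pool.Agent.Helper99.CYC

open Finset Polynomial

variable {K : Type} [Field K]

/-- `E(X) = ∏ (1 + d_i X)`. -/
noncomputable def EE {r : ℕ} (d : Fin r → K) : K[X] := ∏ i, (1 + C (d i) * X)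

/-- `E` without the factor `i0`. -/
noncomputable def EE' {r : ℕ} (d : Fin r → K) (i0 : Fin r) : K[X] :=
  ∏ i ∈ univ.erase i0, (1 + C (d i) * X)

/-- `h_n(f)`, `f` the polynomial with every root `d_i` doubled: coefficients of `1 / E ^ 2`. -/
noncomputable def hf {r : ℕ} (d : Fin r → K) (n : ℕ) : K :=
  PowerSeries.coeff n (((EE d ^ 2 : K[X]) : PowerSeries K))⁻¹

/-- (H)_e : the linear form `h_{r+e}(X) = ∑ h_{r+e-i}(f) e_i(X)`, tested by all `θ`. -/
def LinH {r : ℕ} (d : Fin r → K) (e : ℕ) : Prop :=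
  ∀ θ : K → K, ∑ i ∈ range (r + 1), hf d (r + e - i) * (EE (fun l => θ (d l))).coeff i = 0

/-- (R)_1 at the root `d i0`: the linear form `∑ h_{r-i}(f) e_i(Y)`, `Y = G / (t - d i0)`. -/
def LinR {r : ℕ} (d : Fin r → K) (i0 : Fin r) : Prop :=
  ∀ θ : K → K, ∑ i ∈ range r, hf d (r - i) * (EE' (fun l => θ (d l)) i0).coeff i = 0

/-- (Z)_1 at the root `d i0`, plain value: `h_w(G (t - d i0)) * e_{w-1}(Y⁻¹) = 0`. -/
def ZOne {r : ℕ} (d : Fin r → K) (i0 : Fin r) (w : ℕ) : Prop :=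
  PowerSeries.coeff w (((EE d * (1 + C (d i0) * X) : K[X]) : PowerSeries K))⁻¹
    * (EE' (fun l => (d l)⁻¹) i0).coeff (w - 1) = 0

/-- The endgame, steps 1-3 of helper65's note: only the family `[FF]` is left. -/
def ST_END : Prop := ∀ (K : Type) [Field K] [CharP K 2] [Infinite K] [DecidableEq K] (r w : ℕ) (d : Fin r → K)
  (i0 : Fin r), (∀ i, d i ≠ 0) → 2 ≤ w → w < r →
  (∀ e, 1 ≤ e → e < w → LinH d e) →
  (∀ e, 1 ≤ e → e < w → LinH (fun i => (d i)⁻¹) e) →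
  LinR d i0 → ZOne d i0 w →
  ∃ (a : ℕ) (y : K → ℕ), 1 ≤ a ∧ w = 2 ^ a ∧
    (univ.filter (fun l => d l = d i0)).card = w + 2 * w * y (d i0) ∧
    ∀ v, v ≠ d i0 → (univ.filter (fun l => d l = v)).card = 2 * w * y v

end Pool.Agent.Helper99.CYC
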