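import Pool.Agent.Helper99.CYC.EndZ

/-!
# Endgame: the family `[FF]`
-/

set_option autoImplicit false
set_option linter.unusedSectionVars false

namespace Pool.Agent.Helper99.CYC

open Finset Polynomial

section

variable {K : Type} [Field K] [CharP K 2]

theorem pp_one_of_zero (s : Finset K) (p : K → ℕ) (φ : K → K) (h : ∀ v ∈ s, p v = 0) :
    PP s p φ = 1 := by
  unfold PP
  refine prod_eq_one fun v hv => ?_
  rw [h v hv, pow_zero]

/-- `2^J y - 1` has the submask `2^J - 1`. -/
theorem odd_choose_pred (J y : ℕ) (hy : 1 ≤ y) :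
    Odd ((2 ^ J * y - 1).choose (2 ^ J - 1)) := by
  have hQ : 0 < 2 ^ J := by positivity
  obtain ⟨z, rfl⟩ : ∃ z, y = z + 1 := ⟨y - 1, by omega⟩
  have h := (odd_choose_cut J (2 ^ J - 1) (2 ^ J - 1) z 0 (by omega) (by omega)).2 (by simp)
  have e1 : 2 ^ J * (z + 1) - 1 = 2 ^ J - 1 + 2 ^ J * z := by
    rw [mul_add, mul_one]
    omega
  rw [e1]
  simpa using h

/-- `2^J c` with `c` odd has the submask `2^J`. -/
theorem odd_choose_top (J c : ℕ) (hc : Odd c) : Odd ((2 ^ J * c).choose (2 ^ J)) := by
  have hQ : 0 < 2 ^ J := by positivity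
  have h := (odd_choose_cut J 0 0 c 1 hQ hQ).2 (by simpa using hc)
  simpa using h

end

/-- Steps 1-3 of the endgame. -/
theorem st_end : ST_END := by
  intro K _ _ _ _ r w d i0 hd hw2 hwr hH hHm hR hZ
  classical
  set s := rts d with hs
  set p := mul d with hp
  have hd0s : d i0 ∈ s := mem_image_of_mem _ (mem_univ _)
  have hs0 : ∀ v ∈ s, v ≠ 0 := by
    intro v hv
    rw [hs] at hv
    unfold rts at hv
    rw [mem_image] at hv
    obtain ⟨l, _, rfl⟩ := hv
    exact hd l
  have hpos : ∀ v ∈ s, 0 < p v := fun v hv => (mul_pos_iff d v).2 hv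
  have hsum : ∑ v ∈ s, p v = r := sum_mul d
  obtain ⟨J, hJ1, hrep, hbig, habs⟩ := exists_cut s p w
  set Q := 2 ^ J with hQ
  have hQpos : 0 < Q := by positivity
  set M := DD s p J with hM
  -- the two polynomials
  set E := EE d with hE
  set Em := EE (fun l => (d l)⁻¹) with hEm
  have hEP : E = PP s p (fun v => v) := EE_eq d (fun v => v)
  have hEmP : Em = PP s p (fun v => v⁻¹) := EE_eq d (fun v => v⁻¹)
  have hE0 : E.coeff 0 = 1 := by rw [hEP]; exact PP_coeff_zero _ _ _
  have hEm0 : Em.coeff 0 = 1 := by rw [hEmP]; exact PP_coeff_zero _ _ _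
  -- submasks from the lower part
  have hlow : ∀ i : K → ℕ, (∀ v ∈ s, Odd ((p v % 2 ^ J).choose (i v))) →
      ∀ v ∈ s, Odd ((p v).choose (i v)) := by
    intro i hi v hv
    have := odd_choose_combine (J := J) (p := p v) (a := i v) (b := 0) (hi v hv) (by simp)
    simpa using this
  have hL : ∀ n, 1 ≤ n → n ≤ w - 1 + M → hh E n = 0 := by
    intro n h1 h2
    obtain ⟨i, e, hi, he1, he2, hne⟩ := hrep n h1 h2
    rw [hne]
    exact linH_sigma d e (hH e he1 he2) i (hlow i hi)
  have hLm : ∀ n, 1 ≤ n → n ≤ w - 1 + M → hh Em n = 0 := by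
    intro n h1 h2
    obtain ⟨i, e, hi, he1, he2, hne⟩ := hrep n h1 h2
    rw [hne]
    exact linH_sigma_inv d e (hHm e he1 he2) i (hlow i hi)
  have cE := coeff_vanish_of_hh E hE0 _ hL
  have cEm := coeff_vanish_of_hh Em hEm0 _ hLm
  have hYE : (1 + C (d i0)⁻¹ * X) * EE' (fun l => (d l)⁻¹) i0 = Em := by
    rw [hEm]
    unfold EE EE'
    rw [mul_prod_erase univ (fun l => (1 + C ((d l)⁻¹) * X : K[X])) (mem_univ i0)]
  have hd0 : d i0 ≠ 0 := hd i0
  -- the value of `E_w`
  have hval : (∀ n, 1 ≤ n → n < w → E.coeff n = 0) → (∀ n, 1 ≤ n → n < w → Em.coeff n = 0) →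
      E.coeff w = d i0 ^ w := by
    intro h1 h2
    refine zOne_value E (EE' (fun l => (d l)⁻¹) i0) hE0 (d i0) hd0 w (by omega) h1 ?_ ?_ hZ
    · rw [hYE]; exact hEm0
    · rw [hYE]; exact h2
  rcases Nat.eq_zero_or_pos M with hM0 | hMpos
  · -- no small blocks
    have hmod : ∀ v ∈ s, p v % 2 ^ J = 0 := by
      intro v hv
      have h1 : ∑ v ∈ s, p v % 2 ^ J = 0 := hM0
      exact (sum_eq_zero_iff.1 h1) v hv
    have hEn : ∀ n, 1 ≤ n → n < Q → E.coeff n = 0 := by
      intro n h1 h2
      rw [hEP, PP_low s p _ J h2, pp_one_of_zero s _ _ hmod, coeff_one, if_neg (by omega)]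
    have hEmn : ∀ n, 1 ≤ n → n < Q → Em.coeff n = 0 := by
      intro n h1 h2
      rw [hEmP, PP_low s p _ J h2, pp_one_of_zero s _ _ hmod, coeff_one, if_neg (by omega)]
    have hwQ : w ≤ Q := by omega
    have hEw := hval (fun n h1 h2 => hEn n h1 (by omega)) (fun n h1 h2 => hEmn n h1 (by omega))
    have hEw0 : E.coeff w ≠ 0 := by rw [hEw]; exact pow_ne_zero _ hd0
    have hwQ' : w = Q := by
      by_contra hne
      exact hEw0 (hEn w (by omega) (by omega))
    have hJ0 : 1 ≤ J := by
      by_contra hcon
      have : J = 0 := by omega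
      rw [hQ, this] at hwQ'
      omega
    -- h_{2 w} is nonzero
    have h2w : hh E (w * 2) ≠ 0 := by
      rw [hh_first' E hE0 w (by omega) (fun n h1 h2 => hEn n h1 (by omega))]
      exact pow_ne_zero _ hEw0
    -- no submask sum 2 w - 1
    have hno : ∀ i : K → ℕ, (∀ v ∈ s, Odd ((mul' d i0 v).choose (i v))) →
        ∑ v ∈ s, i v ≠ 2 * w - 1 := by
      intro i hi hsumi
      apply h2w
      have h1 := linR_sigma d i0 hR i hi
      rw [← hs, hsumi] at h1
      have e1 : 2 * w - 1 + 1 = w * 2 := by omega
      rw [e1] at h1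
      exact h1
    have hdiv : ∀ v ∈ s, p v = Q * (p v / Q) := by
      intro v hv
      have h1 := hmod v hv
      have h2 := Nat.div_add_mod (p v) Q
      rw [hQ] at h2 ⊢
      omega
    -- the root d i0 has an odd quotient
    have hodd0 : p (d i0) / Q % 2 = 1 := by
      by_contra hcon
      have heven : p (d i0) / Q % 2 = 0 := by omega
      obtain ⟨y, hy⟩ : ∃ y, p (d i0) / Q = 2 * y := ⟨p (d i0) / Q / 2, by omega⟩
      have h1 := hdiv _ hd0s
      rw [hy] at h1
      have hy1 : 1 ≤ y := by
        rcases Nat.eq_zero_or_pos y with h | h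
        · have h2 := hpos _ hd0s
          rw [h1, h] at h2
          simp at h2
        · exact h
      refine hno (fun v => if v = d i0 then 2 * w - 1 else 0) ?_ ?_
      · intro v hv
        by_cases hv0 : v = d i0
        · have e1 : mul' d i0 v = 2 ^ (J + 1) * y - 1 := by
            unfold mul'
            rw [if_pos hv0, hv0]
            show p (d i0) - 1 = _
            rw [h1, hQ, pow_succ]
            ring_nf
          have e2 : 2 * w - 1 = 2 ^ (J + 1) - 1 := by
            rw [hwQ', hQ, pow_succ]
            omega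
          simp only [if_pos hv0]
          rw [e1, e2]
          exact odd_choose_pred (J + 1) y hy1
        · simp only [if_neg hv0]
          rw [Nat.choose_zero_right]
          exact odd_one
      · rw [sum_ite_eq' s (d i0), if_pos hd0s]
    have hevenv : ∀ v ∈ s, v ≠ d i0 → p v / Q % 2 = 0 := by
      intro v hv hne
      by_contra hcon
      have hoddv : p v / Q % 2 = 1 := by omega
      have hc1 : 1 ≤ p (d i0) / Q := by
        refine Nat.pos_of_ne_zero (fun h => ?_)
        rw [h] at hodd0
        simp at hodd0
      refine hno (fun u => if u = d i0 then w - 1 else if u = v then w else 0) ?_ ?_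
      · intro u hu
        by_cases hu0 : u = d i0
        · simp only [if_pos hu0]
          have e1 : mul' d i0 u = 2 ^ J * (p (d i0) / Q) - 1 := by
            unfold mul'
            rw [if_pos hu0, hu0]
            show p (d i0) - 1 = _
            conv_lhs => rw [hdiv _ hd0s]
          rw [e1, hwQ', hQ]
          exact odd_choose_pred J _ hc1
        · by_cases huv : u = v
          · simp only [if_neg hu0, if_pos huv]
            have e1 : mul' d i0 u = 2 ^ J * (p v / Q) := by
              unfold mul'
              rw [if_neg hu0, huv]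
              exact hdiv v hv
            rw [e1, hwQ', hQ]
            exact odd_choose_top J _ (Nat.odd_iff.2 hoddv)
          · simp only [if_neg hu0, if_neg huv]
            rw [Nat.choose_zero_right]
            exact odd_one
      · have e1 : ∀ u ∈ s, (if u = d i0 then w - 1 else if u = v then w else 0)
            = (if u = d i0 then w - 1 else 0) + (if u = v then w else 0) := by
          intro u _
          by_cases hu0 : u = d i0
          · have hne' : d i0 ≠ v := fun h => hne h.symm
            simp [hu0, hne']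
          · simp [hu0]
        rw [sum_congr rfl e1, sum_add_distrib, sum_ite_eq' s (d i0), if_pos hd0s,
          sum_ite_eq' s v, if_pos hv]
        omega
    refine ⟨J, fun v => p v / (2 * w), hJ0, by rw [hwQ', hQ], ?_, ?_⟩
    · show p (d i0) = w + 2 * w * (p (d i0) / (2 * w))
      have h1 := hdiv _ hd0s
      have h2 : p (d i0) / (2 * w) = p (d i0) / Q / 2 := by
        rw [hwQ', mul_comm, Nat.div_div_eq_div_mul]
      rw [h2]
      have h3 : p (d i0) / Q = 2 * (p (d i0) / Q / 2) + 1 := by omega
      set c := p (d i0) / Q / 2 with hc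
      rw [h3] at h1
      rw [h1, hwQ']
      ring
    · intro v hv
      show p v = 2 * w * (p v / (2 * w))
      by_cases hvs : v ∈ s
      · have h1 := hdiv _ hvs
        have h2 : p v / (2 * w) = p v / Q / 2 := by
          rw [hwQ', mul_comm, Nat.div_div_eq_div_mul]
        rw [h2]
        have h3 := hevenv v hvs hv
        have h4 : p v / Q = 2 * (p v / Q / 2) := by omega
        set c := p v / Q / 2 with hc
        rw [h4] at h1
        rw [h1, hwQ']
        ring
      · have h1 : p v = 0 := by
          by_contra hne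
          exact hvs ((mul_pos_iff d v).1 (Nat.pos_of_ne_zero hne))
        rw [h1]
        simp
  · -- small blocks: contradiction
    exfalso
    have hMQ : M < Q := by omega
    have htop : E.coeff M ≠ 0 := by
      rw [hEP, PP_low s p _ J hMQ]
      exact PP_top s _ _ (fun v hv => hs0 v hv)
    have hwM : w ≤ M := by
      by_contra hcon
      exact htop (cE M hMpos (by omega))
    have hEw := hval (fun n h1 h2 => cE n h1 (by omega)) (fun n h1 h2 => cEm n h1 (by omega))
    have hEw0 : E.coeff w ≠ 0 := by rw [hEw]; exact pow_ne_zero _ hd0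
    have hMw : M = w := by
      by_contra hne
      exact hEw0 (cE w (by omega) (by omega))
    -- shape of the low part
    set H0 := PP s (fun v => p v % 2 ^ J) (fun v => v) with hH0
    have hH0c : ∀ n, n < Q → E.coeff n = H0.coeff n := by
      intro n hn
      rw [hEP, PP_low s p _ J hn]
    have hH0eq : H0 = 1 + C (d i0 ^ w) * X ^ w := by
      ext n
      rw [coeff_add, coeff_one, coeff_C_mul, coeff_X_pow]
      rcases Nat.lt_trichotomy n w with h | h | h
      · rcases Nat.eq_zero_or_pos n with h0 | h0
        · subst h0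
          rw [if_pos rfl, if_neg (by omega), ← hH0c 0 hQpos, hE0]
          ring
        · rw [if_neg (by omega), if_neg (by omega), ← hH0c n (by omega),
            cE n h0 (by omega)]
          ring
      · subst h
        rw [if_neg (by omega), if_pos rfl, ← hH0c n (by omega), hEw]
        ring
      · rw [if_neg (by omega), if_neg (by omega)]
        have h1 := (PP_natDegree s (fun v => p v % 2 ^ J) (fun v => v) (fun v hv => hs0 v hv)).1
        have h2 : H0.natDegree = M := h1
        rw [coeff_eq_zero_of_natDegree_lt (by rw [h2, hMw]; exact h)]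
        ring
    -- a big block
    have hbig1 : ∃ v1 ∈ s, p v1 / 2 ^ J % 2 = 1 := by
      rcases hbig with h | h
      · exact h
      · exfalso
        have h1 : M = ∑ v ∈ s, p v := by
          rw [hM]
          unfold DD
          exact sum_congr rfl fun v hv => Nat.mod_eq_of_lt (h v hv)
        omega
    obtain ⟨v1, hv1, hv1b⟩ := hbig1
    -- vanishing above Q
    have hQn : ∀ n, 1 ≤ n → n ≤ 2 * w - 1 → hh E (Q + n) = 0 := by
      intro n h1 h2
      obtain ⟨i, e, hi, he1, he2, hne⟩ := hrep n h1 (by omega)
      have h3 := linH_sigma d e (hH e he1 he2)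
        (fun v => i v + 2 ^ J * (if v = v1 then 1 else 0)) (by
          intro v hv
          refine odd_choose_combine (hi v hv) ?_
          by_cases hvv : v = v1
          · subst hvv
            rw [if_pos rfl, Nat.choose_one_right]
            exact Nat.odd_iff.2 hv1b
          · rw [if_neg hvv, Nat.choose_zero_right]
            exact odd_one)
      have e1 : ∑ v ∈ rts d, (i v + 2 ^ J * (if v = v1 then 1 else 0)) + e = Q + n := by
        rw [sum_add_distrib, ← mul_sum, ← hs, sum_ite_eq' s v1, if_pos hv1, hne, hQ]
        ring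
      rw [e1] at h3
      exact h3
    by_cases hdvd : 2 * w ∣ Q
    · -- w is a power of two: a single root
      obtain ⟨b, hbJ, hb⟩ := (Nat.dvd_prime_pow Nat.prime_two).1 hdvd
      obtain ⟨a, rfl⟩ : ∃ a, b = a + 1 := by
        rcases b with _ | a
        · rw [pow_zero] at hb; omega
        · exact ⟨a, rfl⟩
      have hwa : w = 2 ^ a := by
        rw [pow_succ] at hb
        omega
      have haJ : a < J := by omega
      have hroot : ∀ v ∈ s, p v % 2 ^ J ≠ 0 → v = d i0 := by
        intro v hv hne
        have h1 : (1 + C v * X : K[X]) ∣ H0 := by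
          rw [hH0]
          unfold PP
          refine dvd_trans (dvd_pow_self _ hne) ?_
          exact dvd_prod_of_mem (fun v => (1 + C v * X : K[X]) ^ (p v % 2 ^ J)) hv
        have h2 : H0.eval v⁻¹ = 0 := by
          obtain ⟨D, hD⟩ := h1
          rw [hD, eval_mul]
          have : (1 + C v * X : K[X]).eval v⁻¹ = 0 := by
            simp only [eval_add, eval_one, eval_mul, eval_C, eval_X]
            rw [mul_inv_cancel₀ (hs0 v hv)]
            exact CharTwo.add_self_eq_zero _
          rw [this, zero_mul]
        rw [hH0eq] at h2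
        simp only [eval_add, eval_one, eval_mul, eval_C, eval_pow, eval_X] at h2
        have h3 : d i0 ^ w = v ^ w := by
          have h4 := CharTwo.add_eq_zero.1 h2
          rw [inv_pow] at h4
          have hvw : v ^ w ≠ 0 := pow_ne_zero _ (hs0 v hv)
          field_simp at h4
          exact h4.symm
        have : Fact (Nat.Prime 2) := ⟨Nat.prime_two⟩
        rw [hwa] at h3
        have h5 : (d i0 - v) ^ 2 ^ a = 0 := by
          rw [sub_pow_char_pow, h3, sub_self]
        have h6 := pow_eq_zero_iff (pow_ne_zero a (two_ne_zero)) |>.1 h5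
        exact (sub_eq_zero.1 h6).symm
      have hpd : p (d i0) % 2 ^ J = 2 ^ a := by
        have h1 : M = p (d i0) % 2 ^ J := by
          rw [hM]
          unfold DD
          refine sum_eq_single_of_mem _ hd0s ?_
          intro v hv hne
          by_contra hcon
          exact hne (hroot v hv hcon)
        omega
      have hDa : DD s p a = 0 := by
        unfold DD
        refine sum_eq_zero fun v hv => ?_
        have h1 : p v % 2 ^ J % 2 ^ a = p v % 2 ^ a :=
          Nat.mod_mod_of_dvd _ (pow_dvd_pow 2 haJ.le)
        rw [← h1]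
        by_cases hv0 : v = d i0
        · rw [hv0, hpd, Nat.mod_self]
        · have h2 : p v % 2 ^ J = 0 := by
            by_contra hcon
            exact hv0 (hroot v hv hcon)
          rw [h2, Nat.zero_mod]
      have hbit : p (d i0) / 2 ^ a % 2 = 1 := by
        have h1 : p (d i0) % 2 ^ J / 2 ^ a % 2 = p (d i0) / 2 ^ a % 2 := by
          have h2 : (2 : ℕ) ^ J = 2 ^ a * 2 ^ (J - a) := by
            rw [← pow_add]
            congr 1
            omega
          rw [h2, Nat.mod_mul_right_div_self]
          have h3 : (2 : ℕ) ∣ 2 ^ (J - a) := dvd_pow_self 2 (by omega)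
          exact Nat.mod_mod_of_dvd _ h3
        rw [← h1, hpd, Nat.div_self (by positivity)]
      have h1 := habs a haJ ⟨d i0, hd0s, hbit⟩
      rw [hDa] at h1
      omega
    · -- a multiple of 2 w above Q
      have hmod0 : Q % (2 * w) ≠ 0 := fun h => hdvd (Nat.dvd_of_mod_eq_zero h)
      have hmlt : Q % (2 * w) < 2 * w := Nat.mod_lt _ (by omega)
      have hdm := Nat.div_add_mod Q (2 * w)
      set a := Q / (2 * w) + 1 with ha
      have ha1 : 2 * w * a = 2 * w * (Q / (2 * w)) + 2 * w := by rw [ha]; ring
      have hlt : 2 * w * a < 2 * Q := by omega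
      have hn1 : 2 * w * a = Q + (2 * w - Q % (2 * w)) := by omega
      have h1 := hQn (2 * w - Q % (2 * w)) (by omega) (by omega)
      rw [← hn1] at h1
      have h2 := hh_power E (expand K (2 ^ J) (PP s (fun v => p v / 2 ^ J) (fun v => v ^ 2 ^ J)))
        (d i0 ^ w) w Q (by omega) (by
          rw [← hH0eq, hH0, hEP]
          exact PP_split s p (fun v => v) J)
        (by rw [expand_coeff_zero _ hQpos, PP_coeff_zero])
        (fun n h1 h2 => expand_near_one _ hQpos _ h1 h2) a hlt
      rw [h1] at h2
      exact pow_ne_zero a (pow_ne_zero 2 (pow_ne_zero w hd0)) h2.symm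

end Pool.Agent.Helper99.CYC
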