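import Pool.Agent.Helper99.CYC.EndDefs

/-!
# Endgame, combinatorial part: Lucas and the absorption of blocks
-/

set_option autoImplicit false

namespace Pool.Agent.Helper99.CYC

open Finset

theorem odd_choose_mod2 (n k : ℕ) :
    Odd (n.choose k) ↔ Odd ((n % 2).choose (k % 2)) ∧ Odd ((n / 2).choose (k / 2)) := by
  have : Fact (Nat.Prime 2) := ⟨Nat.prime_two⟩
  have h := Choose.choose_modEq_choose_mod_mul_choose_div_nat (n := n) (k := k) (p := 2)
  rw [← Nat.odd_mul, Nat.odd_iff, Nat.odd_iff]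
  rw [Nat.ModEq] at h
  rw [h]

/-- Lucas for one cut at the bit `J`. -/
theorem odd_choose_cut (J : ℕ) : ∀ (x a y b : ℕ), x < 2 ^ J → a < 2 ^ J →
    (Odd ((x + 2 ^ J * y).choose (a + 2 ^ J * b)) ↔ Odd (x.choose a) ∧ Odd (y.choose b)) := by
  induction J with
  | zero =>
    intro x a y b hx ha
    have hx0 : x = 0 := by simpa using hx
    have ha0 : a = 0 := by simpa using ha
    subst hx0; subst ha0
    simp
  | succ J ih =>
    intro x a y b hx ha
    have h2 : ∀ z t : ℕ, (z + 2 ^ (J + 1) * t) % 2 = z % 2 := by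
      intro z t
      rw [pow_succ, mul_comm (2 ^ J) 2, mul_assoc]
      omega
    have h3 : ∀ z t : ℕ, (z + 2 ^ (J + 1) * t) / 2 = z / 2 + 2 ^ J * t := by
      intro z t
      rw [pow_succ, mul_comm (2 ^ J) 2, mul_assoc]
      omega
    have hx' : x / 2 < 2 ^ J := by rw [pow_succ] at hx; omega
    have ha' : a / 2 < 2 ^ J := by rw [pow_succ] at ha; omega
    rw [odd_choose_mod2, h2, h2, h3, h3, ih _ _ _ _ hx' ha', odd_choose_mod2 x a]
    tauto

theorem lt_of_odd_choose {x a Q : ℕ} (hx : x < Q) (h : Odd (x.choose a)) : a < Q := by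
  by_contra hc
  have : x.choose a = 0 := Nat.choose_eq_zero_of_lt (by omega)
  rw [this] at h
  simp at h

/-- submasks: below the cut from `p % 2^J`, above from `p / 2^J`. -/
theorem odd_choose_combine {J p a b : ℕ} (h1 : Odd ((p % 2 ^ J).choose a))
    (h2 : Odd ((p / 2 ^ J).choose b)) : Odd (p.choose (a + 2 ^ J * b)) := by
  have hx : p % 2 ^ J < 2 ^ J := Nat.mod_lt _ (by positivity)
  have ha := lt_of_odd_choose hx h1
  have := (odd_choose_cut J (p % 2 ^ J) a (p / 2 ^ J) b hx ha).2 ⟨h1, h2⟩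
  rwa [Nat.mod_add_div] at this

/-- Total size of the blocks of size `< 2^j`. -/
def DD {K : Type} (s : Finset K) (p : K → ℕ) (j : ℕ) : ℕ := ∑ v ∈ s, p v % 2 ^ j

/-- `n` is a sum of blocks of size `< 2^j` plus an element of `[1, w-1]`. -/
def Rep {K : Type} (s : Finset K) (p : K → ℕ) (w j n : ℕ) : Prop :=
  ∃ (i : K → ℕ) (e : ℕ), (∀ v ∈ s, Odd ((p v % 2 ^ j).choose (i v))) ∧ 1 ≤ e ∧ e < w ∧
    n = ∑ v ∈ s, i v + e

theorem DD_succ {K : Type} (s : Finset K) (p : K → ℕ) (j : ℕ) :
    DD s p (j + 1) = DD s p j + 2 ^ j * (s.filter (fun v => p v / 2 ^ j % 2 = 1)).card := by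
  unfold DD
  rw [card_filter, mul_sum, ← sum_add_distrib]
  refine sum_congr rfl fun v _ => ?_
  rw [Nat.mod_pow_succ]
  rcases Nat.mod_two_eq_zero_or_one (p v / 2 ^ j) with h | h <;> simp [h]

theorem rep_of_absorb {K : Type} [DecidableEq K] (s : Finset K) (p : K → ℕ) (w : ℕ) (J : ℕ)
    (hJ : ∀ a < J, (∃ v ∈ s, p v / 2 ^ a % 2 = 1) → 2 ^ a ≤ w - 1 + DD s p a) :
    ∀ j ≤ J, ∀ n, 1 ≤ n → n ≤ w - 1 + DD s p j → Rep s p w j n := by
  intro j
  induction j with
  | zero =>
    intro _ n h1 hn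
    have hD : DD s p 0 = 0 := by
      unfold DD
      simp [Nat.mod_one]
    rw [hD] at hn
    refine ⟨fun _ => 0, n, ?_, h1, by omega, by simp⟩
    intro v _
    simp
  | succ j ih =>
    intro hjJ n h1 hn
    have hb := hJ j (by omega)
    have ih' := ih (by omega)
    rw [DD_succ] at hn
    set L := w - 1 + DD s p j with hL
    set F := s.filter (fun v => p v / 2 ^ j % 2 = 1) with hF
    -- choose the number of new blocks
    have hc : ∃ c ≤ F.card, 1 ≤ n - 2 ^ j * c ∧ n - 2 ^ j * c ≤ L ∧ 2 ^ j * c ≤ n := by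
      by_cases hF0 : F.card = 0
      · exact ⟨0, by omega, by simpa using h1, by rw [hF0] at hn; simpa using hn, by simp⟩
      · have hne : ∃ v ∈ s, p v / 2 ^ j % 2 = 1 := by
          obtain ⟨v, hv⟩ := card_pos.1 (Nat.pos_of_ne_zero hF0)
          rw [hF, mem_filter] at hv
          exact ⟨v, hv.1, hv.2⟩
        have hle := hb hne
        have hpos : 0 < 2 ^ j := by positivity
        -- the largest c ≤ card with 2^j c < n
        let P : ℕ → Prop := fun c => 2 ^ j * c < n
        have := Nat.findGreatest_spec (P := P) (n := F.card) (m := 0) (by omega)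
          (by show 2 ^ j * 0 < n; rw [mul_zero]; omega)
        set c := Nat.findGreatest P F.card with hcdef
        have hcle : c ≤ F.card := Nat.findGreatest_le _
        have hclt : 2 ^ j * c < n := this
        refine ⟨c, hcle, by omega, ?_, by omega⟩
        rcases Nat.lt_or_ge c F.card with hlt | hge
        · have hnot : ¬ P (c + 1) := by
            intro hP
            have := Nat.le_findGreatest (P := P) (n := F.card) (m := c + 1) (by omega) hP
            omega
          have : n ≤ 2 ^ j * (c + 1) := by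
            by_contra hcon
            exact hnot (by show 2 ^ j * (c + 1) < n; omega)
          rw [mul_add, mul_one] at this
          omega
        · have : c = F.card := by omega
          rw [this]
          omega
    obtain ⟨c, hcF, hc1, hc2, hc3⟩ := hc
    obtain ⟨T, hTF, hTc⟩ := exists_subset_card_eq hcF
    obtain ⟨i, e, hi, he1, he2, hne⟩ := ih' (n - 2 ^ j * c) hc1 hc2
    refine ⟨fun v => i v + 2 ^ j * (if v ∈ T then 1 else 0), e, ?_, he1, he2, ?_⟩
    · intro v hv
      have hx : p v % 2 ^ j < 2 ^ j := Nat.mod_lt _ (by positivity)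
      have ha := lt_of_odd_choose hx (hi v hv)
      rw [Nat.mod_pow_succ, odd_choose_cut j _ _ _ _ hx ha]
      refine ⟨hi v hv, ?_⟩
      by_cases hT : v ∈ T
      · have := hTF hT
        rw [hF, mem_filter] at this
        simp [hT, this.2]
      · simp [hT]
    · rw [sum_add_distrib, ← mul_sum]
      have hTs : ∑ v ∈ s, (if v ∈ T then 1 else 0) = c := by
        rw [← hTc, card_eq_sum_ones, ← sum_filter]
        congr 1
        ext v
        simp only [mem_filter]
        constructor
        · exact fun h => h.2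
        · intro h
          have := hTF h
          rw [hF, mem_filter] at this
          exact ⟨this.1, h⟩
      rw [hTs]
      omega

/-- The cut level `J`. -/
theorem exists_cut {K : Type} [DecidableEq K] (s : Finset K) (p : K → ℕ) (w : ℕ) :
    ∃ J, w - 1 + DD s p J < 2 ^ J ∧ (∀ n, 1 ≤ n → n ≤ w - 1 + DD s p J → Rep s p w J n) ∧
      ((∃ v ∈ s, p v / 2 ^ J % 2 = 1) ∨ ∀ v ∈ s, p v < 2 ^ J) ∧
      (∀ a < J, (∃ v ∈ s, p v / 2 ^ a % 2 = 1) → 2 ^ a ≤ w - 1 + DD s p a) := by
  classical
  by_cases h : ∃ j, (∃ v ∈ s, p v / 2 ^ j % 2 = 1) ∧ w - 1 + DD s p j < 2 ^ j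
  · have hs := Nat.find_spec h
    have hm := fun a (ha : a < Nat.find h) => Nat.find_min h ha
    set J := Nat.find h with hJ
    have hb : ∀ a < J, (∃ v ∈ s, p v / 2 ^ a % 2 = 1) → 2 ^ a ≤ w - 1 + DD s p a := by
      intro a ha hv
      by_contra hcon
      exact hm a ha ⟨hv, by omega⟩
    exact ⟨J, hs.2, rep_of_absorb s p w J hb J le_rfl, Or.inl hs.1, hb⟩
  · have hb : ∀ a, (∃ v ∈ s, p v / 2 ^ a % 2 = 1) → 2 ^ a ≤ w - 1 + DD s p a := by
      intro a hv
      by_contra hcon
      exact h ⟨a, hv, by omega⟩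
    set S := w + ∑ v ∈ s, p v with hS
    have hlt : S < 2 ^ S := Nat.lt_two_pow_self
    have hD : DD s p S ≤ ∑ v ∈ s, p v := sum_le_sum fun v _ => Nat.mod_le _ _
    refine ⟨S, by omega, rep_of_absorb s p w S (fun a _ => hb a) S le_rfl, Or.inr ?_,
      fun a _ => hb a⟩
    intro v hv
    have : p v ≤ ∑ v ∈ s, p v := single_le_sum (f := p) (fun _ _ => Nat.zero_le _) hv
    omega

end Pool.Agent.Helper99.CYC
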