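import Pool.Agent.Helper99.CYC.EndA

/-!
# Endgame: linear forms tested by all `θ`
-/

set_option autoImplicit false

namespace Pool.Agent.Helper99.CYC

open Finset Polynomial

lemma coeff_zero_of_eval {K : Type} [Field K] [Infinite K] {D : Type} [Fintype D]
    [DecidableEq D] (S : Finset (D → ℕ)) (c : (D → ℕ) → K)
    (h : ∀ A : D → K, ∑ φ ∈ S, c φ * ∏ v, A v ^ φ v = 0) :
    ∀ φ ∈ S, c φ = 0 := by
  classical
  set F : MvPolynomial D K :=
    ∑ φ ∈ S, MvPolynomial.monomial (Finsupp.equivFunOnFinite.symm φ) (c φ) with hF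
  have hF0 : F = 0 := by
    apply MvPolynomial.funext
    intro A
    rw [map_zero, ← h A, hF, map_sum]
    refine Finset.sum_congr rfl (fun φ _ => ?_)
    rw [MvPolynomial.eval_monomial, Finsupp.prod_fintype]
    · simp
    · intro i
      exact pow_zero _
  intro φ hφ
  have h1 := congrArg (MvPolynomial.coeff (Finsupp.equivFunOnFinite.symm φ)) hF0
  rw [hF, MvPolynomial.coeff_sum, MvPolynomial.coeff_zero, Finset.sum_eq_single φ] at h1
  · rw [MvPolynomial.coeff_monomial, if_pos rfl] at h1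
    exact h1
  · intro ψ hψ hne
    rw [MvPolynomial.coeff_monomial, if_neg]
    intro h2
    apply hne
    exact Finsupp.equivFunOnFinite.symm.injective h2
  · intro h2
    exact absurd hφ h2

theorem natCast_odd {K : Type} [Field K] [CharP K 2] {n : ℕ} (hn : Odd n) : (n : K) = 1 := by
  obtain ⟨q, rfl⟩ := hn
  have h2 : (2 : K) = 0 := CharTwo.two_eq_zero
  push_cast
  rw [h2, zero_mul, zero_add]

theorem lemC {K : Type} [Field K] [CharP K 2] [Infinite K] (s : Finset K) (p : K → ℕ)
    (N : ℕ) (hN : ∑ v ∈ s, p v ≤ N) (m : ℕ → K)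
    (h : ∀ θ : K → K, ∑ i ∈ range (N + 1), m i *
      (∏ v ∈ s, (1 + C (θ v) * X : K[X]) ^ p v).coeff i = 0)
    (i : K → ℕ) (hi : ∀ v ∈ s, Odd ((p v).choose (i v))) : m (∑ v ∈ s, i v) = 0 := by
  classical
  set T : Finset ({v // v ∈ s} → ℕ) :=
    Fintype.piFinset (fun v : {v // v ∈ s} => range (p v + 1)) with hT
  have key : ∀ A : {v // v ∈ s} → K, ∑ φ ∈ T, (m (∑ v : {v // v ∈ s}, φ v) *
      ∏ v : {v // v ∈ s}, ((p v).choose (φ v) : K)) * ∏ v : {v // v ∈ s}, A v ^ φ v = 0 := by
    intro A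
    set θ : K → K := fun t => if ht : t ∈ s then A ⟨t, ht⟩ else 0 with hθ
    have h0 := h θ
    have h1 : (∏ v ∈ s, (1 + C (θ v) * X : K[X]) ^ p v)
        = ∑ φ ∈ T, C (∏ v : {v // v ∈ s}, ((p v).choose (φ v) : K) * A v ^ φ v) *
          X ^ (∑ v : {v // v ∈ s}, φ v) := by
      rw [← Finset.prod_coe_sort]
      have e2 : ∀ v : {v // v ∈ s}, (1 + C (θ v) * X : K[X]) ^ p v
          = ∑ j ∈ range (p v + 1), C (((p v).choose j : K) * A v ^ j) * X ^ j := by
        intro v
        have hv : θ v = A v := by rw [hθ]; simp only [dif_pos v.2]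
        rw [hv, add_comm, add_pow]
        refine Finset.sum_congr rfl (fun j _ => ?_)
        rw [mul_pow]
        simp only [map_mul, map_pow, map_natCast]
        ring
      rw [Finset.prod_congr rfl (fun v _ => e2 v), Finset.prod_univ_sum]
      refine Finset.sum_congr rfl (fun φ _ => ?_)
      rw [Finset.prod_mul_distrib, ← map_prod, Finset.prod_pow_eq_pow_sum]
    rw [h1] at h0
    have h2 : ∀ j ∈ range (N + 1), m j * (∑ φ ∈ T,
          C (∏ v : {v // v ∈ s}, ((p v).choose (φ v) : K) * A v ^ φ v) *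
          X ^ (∑ v : {v // v ∈ s}, φ v) : K[X]).coeff j
        = ∑ φ ∈ T, if j = ∑ v : {v // v ∈ s}, φ v then
          (m (∑ v : {v // v ∈ s}, φ v) * ∏ v : {v // v ∈ s}, ((p v).choose (φ v) : K)) *
            ∏ v : {v // v ∈ s}, A v ^ φ v else 0 := by
      intro j _
      rw [finsetSum_coeff, Finset.mul_sum]
      refine Finset.sum_congr rfl (fun φ _ => ?_)
      rw [coeff_C_mul, coeff_X_pow, prod_mul_distrib]
      split_ifs with h
      · rw [h]; ring
      · ring
    rw [Finset.sum_congr rfl h2, Finset.sum_comm] at h0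
    rw [← h0]
    refine Finset.sum_congr rfl (fun φ hφ => ?_)
    rw [Finset.sum_ite_eq', if_pos]
    rw [mem_range, Nat.lt_succ_iff]
    refine le_trans ?_ hN
    rw [← Finset.sum_coe_sort s p]
    refine Finset.sum_le_sum (fun v _ => ?_)
    have h5 := (Fintype.mem_piFinset.1 hφ) v
    rw [mem_range] at h5
    omega
  set φ : {v // v ∈ s} → ℕ := fun v => i v with hφ
  have hmem : φ ∈ T := by
    rw [hT, Fintype.mem_piFinset]
    intro v
    rw [mem_range, Nat.lt_succ_iff]
    by_contra hcon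
    have h1 := hi v v.2
    rw [Nat.choose_eq_zero_of_lt (not_le.1 hcon)] at h1
    exact absurd h1 (by decide)
  have h1 := coeff_zero_of_eval T _ key φ hmem
  have h2 : (∏ v : {v // v ∈ s}, ((p v).choose (φ v) : K)) = 1 :=
    Finset.prod_eq_one (fun v _ => natCast_odd (hi v v.2))
  rw [h2, mul_one] at h1
  have h3 : ∑ v : {v // v ∈ s}, φ v = ∑ v ∈ s, i v := Finset.sum_coe_sort s i
  rw [h3] at h1
  exact h1

/-- The multiplicity of `v`. -/
def mul {K : Type} [DecidableEq K] {r : ℕ} (d : Fin r → K) (v : K) : ℕ :=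
  (univ.filter (fun l => d l = v)).card

/-- The set of roots. -/
def rts {K : Type} [DecidableEq K] {r : ℕ} (d : Fin r → K) : Finset K := univ.image d

theorem EE_eq {K : Type} [Field K] [DecidableEq K] {r : ℕ} (d : Fin r → K) (θ : K → K) :
    EE (fun l => θ (d l)) = ∏ v ∈ rts d, (1 + C (θ v) * X : K[X]) ^ mul d v := by
  unfold EE mul rts
  rw [Finset.prod_comp (fun v => (1 + C (θ v) * X : K[X])) d]

theorem sum_mul {K : Type} [DecidableEq K] {r : ℕ} (d : Fin r → K) :
    ∑ v ∈ rts d, mul d v = r := by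
  have h4 := Finset.card_eq_sum_card_image d (univ : Finset (Fin r))
  rw [Finset.card_univ, Fintype.card_fin] at h4
  exact h4.symm

theorem mul_pos_iff {K : Type} [DecidableEq K] {r : ℕ} (d : Fin r → K) (v : K) :
    0 < mul d v ↔ v ∈ rts d := by
  unfold mul rts
  rw [card_pos, mem_image]
  constructor
  · rintro ⟨l, hl⟩
    exact ⟨l, mem_univ _, (mem_filter.1 hl).2⟩
  · rintro ⟨l, _, hl⟩
    exact ⟨l, mem_filter.2 ⟨mem_univ _, hl⟩⟩

/-- The multiplicity after removal of one `d i0`. -/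
def mul' {K : Type} [DecidableEq K] {r : ℕ} (d : Fin r → K) (i0 : Fin r) (v : K) : ℕ :=
  if v = d i0 then mul d v - 1 else mul d v

theorem EE'_eq {K : Type} [Field K] [DecidableEq K] {r : ℕ} (d : Fin r → K) (i0 : Fin r)
    (θ : K → K) :
    EE' (fun l => θ (d l)) i0 = ∏ v ∈ rts d, (1 + C (θ v) * X : K[X]) ^ mul' d i0 v := by
  have h0 : (1 + C (θ (d i0)) * X : K[X]) ≠ 0 := by
    intro h
    have := congrArg (fun P : K[X] => P.coeff 0) h
    simp at this
  apply mul_left_cancel₀ h0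
  have h1 : (1 + C (θ (d i0)) * X : K[X]) * EE' (fun l => θ (d l)) i0
      = EE (fun l => θ (d l)) := by
    unfold EE EE'
    rw [mul_prod_erase univ (fun l => (1 + C (θ (d l)) * X : K[X])) (mem_univ i0)]
  rw [h1, EE_eq]
  have hmem : d i0 ∈ rts d := mem_image_of_mem _ (mem_univ _)
  rw [← mul_prod_erase _ _ hmem, ← mul_prod_erase _ (fun v => (1 + C (θ v) * X : K[X]) ^ mul' d i0 v) hmem]
  have h2 : mul' d i0 (d i0) = mul d (d i0) - 1 := by unfold mul'; rw [if_pos rfl]
  have h3 : 0 < mul d (d i0) := (mul_pos_iff d _).2 hmem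
  have h4 : mul d (d i0) = (mul d (d i0) - 1) + 1 := by omega
  rw [← mul_assoc, h2, ← pow_succ', ← h4]
  congr 1
  refine prod_congr rfl fun v hv => ?_
  unfold mul'
  rw [if_neg (ne_of_mem_erase hv)]

theorem sum_mul' {K : Type} [DecidableEq K] {r : ℕ} (d : Fin r → K) (i0 : Fin r) :
    ∑ v ∈ rts d, mul' d i0 v = r - 1 := by
  have hmem : d i0 ∈ rts d := mem_image_of_mem _ (mem_univ _)
  have h := sum_mul d
  rw [← add_sum_erase _ _ hmem] at h
  rw [← add_sum_erase _ _ hmem]
  have h2 : mul' d i0 (d i0) = mul d (d i0) - 1 := by unfold mul'; rw [if_pos rfl]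
  have h3 : 0 < mul d (d i0) := (mul_pos_iff d _).2 hmem
  have h5 : ∑ v ∈ (rts d).erase (d i0), mul' d i0 v = ∑ v ∈ (rts d).erase (d i0), mul d v := by
    refine sum_congr rfl fun v hv => ?_
    unfold mul'
    rw [if_neg (ne_of_mem_erase hv)]
  omega


/-- (H)_e gives the vanishing of `h_{n+e}(f)` for all `n` in `Σ(G)`. General form. -/
theorem linH_sigma_gen {K : Type} [Field K] [CharP K 2] [Infinite K] [DecidableEq K] {r : ℕ}
    (d : Fin r → K) (e : ℕ) (H : ℕ → K)
    (h : ∀ θ : K → K, ∑ j ∈ range (r + 1), H (r + e - j) * (EE (fun l => θ (d l))).coeff j = 0)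
    (i : K → ℕ) (hi : ∀ v ∈ rts d, Odd ((mul d v).choose (i v))) :
    H (∑ v ∈ rts d, i v + e) = 0 := by
  have h1 := lemC (rts d) (mul d) r (sum_mul d).le (fun j => H (r + e - j)) (by
    intro θ
    have := h θ
    rw [EE_eq] at this
    exact this) (fun v => mul d v - i v) (by
    intro v hv
    have hle : i v ≤ mul d v := by
      by_contra hcon
      have h1 := hi v hv
      rw [Nat.choose_eq_zero_of_lt (not_le.1 hcon)] at h1
      exact absurd h1 (by decide)
    show Odd ((mul d v).choose (mul d v - i v))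
    rw [Nat.choose_symm hle]
    exact hi v hv)
  have h2 : ∑ v ∈ rts d, (mul d v - i v) + ∑ v ∈ rts d, i v = r := by
    rw [← sum_add_distrib]
    refine Eq.trans ?_ (sum_mul d)
    refine sum_congr rfl fun v hv => ?_
    have hle : i v ≤ mul d v := by
      by_contra hcon
      have h1 := hi v hv
      rw [Nat.choose_eq_zero_of_lt (not_le.1 hcon)] at h1
      exact absurd h1 (by decide)
    omega
  have h3 : r + e - ∑ v ∈ rts d, (mul d v - i v) = ∑ v ∈ rts d, i v + e := by omega
  rw [← h3]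
  exact h1

/-- (H)_e gives the vanishing of `h_{n+e}(f)` for all `n` in `Σ(G)`. -/
theorem linH_sigma {K : Type} [Field K] [CharP K 2] [Infinite K] [DecidableEq K] {r : ℕ}
    (d : Fin r → K) (e : ℕ) (h : LinH d e) (i : K → ℕ)
    (hi : ∀ v ∈ rts d, Odd ((mul d v).choose (i v))) :
    hf d (∑ v ∈ rts d, i v + e) = 0 :=
  linH_sigma_gen d e (hf d) h i hi

/-- The mirror form. -/
theorem linH_sigma_inv {K : Type} [Field K] [CharP K 2] [Infinite K] [DecidableEq K] {r : ℕ}
    (d : Fin r → K) (e : ℕ) (h : LinH (fun l => (d l)⁻¹) e) (i : K → ℕ)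
    (hi : ∀ v ∈ rts d, Odd ((mul d v).choose (i v))) :
    hf (fun l => (d l)⁻¹) (∑ v ∈ rts d, i v + e) = 0 := by
  refine linH_sigma_gen d e (hf (fun l => (d l)⁻¹)) (fun θ => ?_) i hi
  have h1 := h (fun t => θ t⁻¹)
  simp only [inv_inv] at h1
  exact h1

/-- (R)_1 gives the vanishing of `h_{1+n}(f)` for all `n` in `Σ(G/(t-d))`. -/
theorem linR_sigma {K : Type} [Field K] [CharP K 2] [Infinite K] [DecidableEq K] {r : ℕ}
    (d : Fin r → K) (i0 : Fin r) (h : LinR d i0) (i : K → ℕ)
    (hi : ∀ v ∈ rts d, Odd ((mul' d i0 v).choose (i v))) :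
    hf d (∑ v ∈ rts d, i v + 1) = 0 := by
  have hr : 0 < r := Fin.pos i0
  have h1 := lemC (rts d) (mul' d i0) (r - 1) (sum_mul' d i0).le (fun j => hf d (r - j)) (by
    intro θ
    have := h θ
    rw [EE'_eq] at this
    have hr' : r - 1 + 1 = r := by omega
    rw [hr']
    exact this) (fun v => mul' d i0 v - i v) (by
    intro v hv
    have hle : i v ≤ mul' d i0 v := by
      by_contra hcon
      have h1 := hi v hv
      rw [Nat.choose_eq_zero_of_lt (not_le.1 hcon)] at h1
      exact absurd h1 (by decide)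
    show Odd ((mul' d i0 v).choose (mul' d i0 v - i v))
    rw [Nat.choose_symm hle]
    exact hi v hv)
  have h2 : ∑ v ∈ rts d, (mul' d i0 v - i v) + ∑ v ∈ rts d, i v = r - 1 := by
    rw [← sum_add_distrib, ← sum_mul' d i0]
    refine sum_congr rfl fun v hv => ?_
    have hle : i v ≤ mul' d i0 v := by
      by_contra hcon
      have h1 := hi v hv
      rw [Nat.choose_eq_zero_of_lt (not_le.1 hcon)] at h1
      exact absurd h1 (by decide)
    omega
  have h3 : r - ∑ v ∈ rts d, (mul' d i0 v - i v) = ∑ v ∈ rts d, i v + 1 := by omega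
  rw [← h3]
  exact h1

end Pool.Agent.Helper99.CYC
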