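import Pool.Agent.Helper99.CYC.EndB

/-!
# Endgame: power series facts
-/

set_option autoImplicit false
set_option linter.unusedSectionVars false

namespace Pool.Agent.Helper99.CYC

open Finset Polynomial

section ps

variable {K : Type} [Field K]

theorem inv_vanish {A B : PowerSeries K} (h : A * B = 1) (h0 : PowerSeries.coeff 0 A = 1)
    {n : ℕ} (hn : 1 ≤ n) (hA : ∀ i, 1 ≤ i → i ≤ n → PowerSeries.coeff i A = 0) :
    PowerSeries.coeff n B = 0 := by
  have h1 := congrArg (PowerSeries.coeff n) h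
  rw [PowerSeries.coeff_mul, PowerSeries.coeff_one, if_neg (by omega)] at h1
  rw [Finset.sum_eq_single (0, n)] at h1
  · simpa [h0] using h1
  · rintro ⟨i, j⟩ hij hne
    rw [HasAntidiagonal.mem_antidiagonal] at hij
    simp only at hij
    have hi : 1 ≤ i := by
      rcases Nat.eq_zero_or_pos i with h | h
      · exfalso
        apply hne
        subst h
        simp only [zero_add] at hij
        rw [hij]
      · exact h
    show PowerSeries.coeff i A * PowerSeries.coeff j B = 0
    rw [hA i hi (by omega), zero_mul]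
  · intro hne
    exact absurd (HasAntidiagonal.mem_antidiagonal.2 (by simp)) hne

theorem inv_next {A B : PowerSeries K} (h : A * B = 1) (h0 : PowerSeries.coeff 0 A = 1)
    {n : ℕ} (hn : 1 ≤ n) (hA : ∀ i, 1 ≤ i → i < n → PowerSeries.coeff i A = 0) :
    PowerSeries.coeff n B + PowerSeries.coeff n A = 0 := by
  have hB0 : PowerSeries.coeff 0 B = 1 := by
    have h1 := congrArg (PowerSeries.coeff 0) h
    rw [PowerSeries.coeff_mul, PowerSeries.coeff_one, if_pos rfl] at h1
    simpa [h0] using h1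
  have h1 := congrArg (PowerSeries.coeff n) h
  rw [PowerSeries.coeff_mul, PowerSeries.coeff_one, if_neg (by omega)] at h1
  have hsub : ({(0, n), (n, 0)} : Finset (ℕ × ℕ)) ⊆ antidiagonal n := by
    intro x hx
    rw [mem_insert, mem_singleton] at hx
    rcases hx with rfl | rfl <;> simp
  rw [← Finset.sum_subset hsub, Finset.sum_pair] at h1
  · simpa [h0, hB0] using h1
  · intro hc
    rw [Prod.mk.injEq] at hc
    omega
  · rintro ⟨i, j⟩ hij hne
    rw [HasAntidiagonal.mem_antidiagonal] at hij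
    simp only at hij
    rw [mem_insert, mem_singleton, Prod.mk.injEq, Prod.mk.injEq] at hne
    show PowerSeries.coeff i A * PowerSeries.coeff j B = 0
    rw [hA i (by omega) (by omega), zero_mul]

/-- coefficients of `U` from those of `(1 + d X) U`. -/
theorem one_add_mul_coeff (U : PowerSeries K) (d : K) (n : ℕ) :
    PowerSeries.coeff (n + 1) (((1 + C d * X : K[X]) : PowerSeries K) * U)
      = PowerSeries.coeff (n + 1) U + d * PowerSeries.coeff n U := by
  rw [Polynomial.coe_add, Polynomial.coe_one, Polynomial.coe_mul, Polynomial.coe_C,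
    Polynomial.coe_X, add_mul, one_mul, map_add, mul_assoc, PowerSeries.coeff_C_mul,
    PowerSeries.coeff_succ_X_mul]

end ps

section two

variable {K : Type} [Field K] [CharP K 2]

theorem sq_coeff (E : K[X]) (n : ℕ) : (E ^ 2).coeff (n * 2) = E.coeff n ^ 2 := by
  have : Fact (Nat.Prime 2) := ⟨Nat.prime_two⟩
  rw [← Polynomial.map_frobenius_expand 2 E, Polynomial.coeff_map,
    Polynomial.coeff_expand_mul (by norm_num), frobenius_def]

theorem coeff_mul_near_one {B D : K[X]} {N : ℕ} (h0 : D.coeff 0 = 1)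
    (hD : ∀ n, 0 < n → n < N → D.coeff n = 0) {n : ℕ} (hn : n < N) :
    (B * D).coeff n = B.coeff n := by
  rw [Polynomial.coeff_mul, Finset.sum_eq_single (n, 0)]
  · simp [h0]
  · rintro ⟨i, j⟩ hij hne
    rw [HasAntidiagonal.mem_antidiagonal] at hij
    simp only at hij
    have hj : 0 < j := by
      rcases Nat.eq_zero_or_pos j with h | h
      · exfalso
        apply hne
        subst h
        simp only [add_zero] at hij
        rw [hij]
      · exact h
    show B.coeff i * D.coeff j = 0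
    rw [hD j hj (by omega), mul_zero]
  · intro hne
    exact absurd (HasAntidiagonal.mem_antidiagonal.2 (by simp)) hne

/-- The product polynomial. -/
noncomputable def PP (s : Finset K) (p : K → ℕ) (φ : K → K) : K[X] :=
  ∏ v ∈ s, (1 + C (φ v) * X) ^ p v

theorem PP_coeff_zero (s : Finset K) (p : K → ℕ) (φ : K → K) : (PP s p φ).coeff 0 = 1 := by
  unfold PP
  rw [Polynomial.coeff_zero_prod]
  refine prod_eq_one fun v _ => ?_
  rw [Polynomial.coeff_zero_eq_eval_zero]
  simp

theorem two_pow_frob (J : ℕ) (c : K) :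
    (1 + C c * X : K[X]) ^ 2 ^ J = 1 + C (c ^ 2 ^ J) * X ^ 2 ^ J := by
  have : Fact (Nat.Prime 2) := ⟨Nat.prime_two⟩
  rw [add_pow_char_pow, one_pow, mul_pow, ← C_pow]

/-- Splitting at the level `J`. -/
theorem PP_split (s : Finset K) (p : K → ℕ) (φ : K → K) (J : ℕ) :
    PP s p φ = PP s (fun v => p v % 2 ^ J) φ *
      expand K (2 ^ J) (PP s (fun v => p v / 2 ^ J) (fun v => φ v ^ 2 ^ J)) := by
  unfold PP
  rw [map_prod, ← prod_mul_distrib]
  refine prod_congr rfl fun v _ => ?_
  have h1 : p v = p v % 2 ^ J + 2 ^ J * (p v / 2 ^ J) := (Nat.mod_add_div _ _).symm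
  conv_lhs => rw [h1]
  rw [pow_add, pow_mul, two_pow_frob]
  simp only [map_pow, map_add, map_one, map_mul, expand_C, expand_X]

theorem expand_near_one (Q : ℕ) (hQ : 0 < Q) (D : K[X]) {n : ℕ} (h0 : 0 < n) (hn : n < Q) :
    (expand K Q D).coeff n = 0 := by
  rw [coeff_expand hQ, if_neg]
  intro h
  exact absurd (Nat.le_of_dvd h0 h) (by omega)

theorem expand_coeff_zero (Q : ℕ) (hQ : 0 < Q) (D : K[X]) :
    (expand K Q D).coeff 0 = D.coeff 0 := by
  rw [coeff_expand hQ, if_pos (dvd_zero _), Nat.zero_div]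

/-- Below `2^J` the coefficients are those of the low part. -/
theorem PP_low (s : Finset K) (p : K → ℕ) (φ : K → K) (J : ℕ) {n : ℕ} (hn : n < 2 ^ J) :
    (PP s p φ).coeff n = (PP s (fun v => p v % 2 ^ J) φ).coeff n := by
  have hQ : 0 < 2 ^ J := by positivity
  rw [PP_split s p φ J]
  refine coeff_mul_near_one (N := 2 ^ J) ?_ ?_ hn
  · rw [expand_coeff_zero _ hQ, PP_coeff_zero]
  · intro n h0 hn
    exact expand_near_one _ hQ _ h0 hn

theorem PP_natDegree (s : Finset K) (p : K → ℕ) (φ : K → K) (hφ : ∀ v ∈ s, φ v ≠ 0) :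
    (PP s p φ).natDegree = ∑ v ∈ s, p v ∧ (PP s p φ).leadingCoeff = ∏ v ∈ s, φ v ^ p v := by
  have hd : ∀ v ∈ s, (1 + C (φ v) * X : K[X]).natDegree = 1 ∧
      (1 + C (φ v) * X : K[X]).leadingCoeff = φ v := by
    intro v hv
    have h1 : (1 + C (φ v) * X : K[X]) = C (φ v) * X + C 1 := by rw [C_1, add_comm]
    rw [h1]
    exact ⟨natDegree_linear (hφ v hv), leadingCoeff_linear (hφ v hv)⟩
  have hne : ∀ v ∈ s, (1 + C (φ v) * X : K[X]) ^ p v ≠ 0 := by
    intro v hv
    apply pow_ne_zero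
    intro h
    have := (hd v hv).1
    rw [h] at this
    simp at this
  unfold PP
  constructor
  · rw [natDegree_prod _ _ hne]
    refine sum_congr rfl fun v hv => ?_
    rw [natDegree_pow, (hd v hv).1, mul_one]
  · rw [leadingCoeff_prod]
    refine prod_congr rfl fun v hv => ?_
    rw [leadingCoeff_pow, (hd v hv).2]

theorem PP_top (s : Finset K) (p : K → ℕ) (φ : K → K) (hφ : ∀ v ∈ s, φ v ≠ 0) :
    (PP s p φ).coeff (∑ v ∈ s, p v) ≠ 0 := by
  have h := PP_natDegree s p φ hφ
  rw [← h.1]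
  show (PP s p φ).leadingCoeff ≠ 0
  rw [h.2]
  exact prod_ne_zero_iff.2 fun v hv => pow_ne_zero _ (hφ v hv)

/-- `h_n` of the square: the coefficients of `1 / E^2`. -/
noncomputable def hh (E : K[X]) (n : ℕ) : K := PowerSeries.coeff n (((E ^ 2 : K[X]) : PowerSeries K))⁻¹

theorem hh_inv (E : K[X]) (h0 : E.coeff 0 = 1) :
    ((E ^ 2 : K[X]) : PowerSeries K) * (((E ^ 2 : K[X]) : PowerSeries K))⁻¹ = 1 := by
  apply PowerSeries.mul_inv_cancel
  rw [← PowerSeries.coeff_zero_eq_constantCoeff_apply, Polynomial.coeff_coe, sq,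
    Polynomial.mul_coeff_zero, h0]
  simp

theorem sq_coeff_zero_one (E : K[X]) (h0 : E.coeff 0 = 1) :
    PowerSeries.coeff 0 ((E ^ 2 : K[X]) : PowerSeries K) = 1 := by
  rw [Polynomial.coeff_coe, sq, Polynomial.mul_coeff_zero, h0, mul_one]

theorem inv_coeff_zero (E : K[X]) (h0 : E.coeff 0 = 1) : hh E 0 = 1 := by
  have h1 := congrArg (PowerSeries.coeff 0) (hh_inv E h0)
  rw [PowerSeries.coeff_mul, PowerSeries.coeff_one, if_pos rfl] at h1
  rw [← h1]
  simp [h0, hh]

/-- vanishing of `h_1, ..., h_L` gives vanishing of the coefficients of `E` up to `L / 2`. -/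
theorem coeff_vanish_of_hh (E : K[X]) (h0 : E.coeff 0 = 1) (L : ℕ)
    (h : ∀ n, 1 ≤ n → n ≤ L → hh E n = 0) :
    ∀ n, 1 ≤ n → 2 * n ≤ L → E.coeff n = 0 := by
  intro n h1 h2
  have h3 : PowerSeries.coeff (n * 2) ((E ^ 2 : K[X]) : PowerSeries K) = 0 := by
    refine inv_vanish (A := (((E ^ 2 : K[X]) : PowerSeries K))⁻¹) ?_ (inv_coeff_zero E h0)
      (by omega) ?_
    · rw [mul_comm]
      exact hh_inv E h0
    · intro i hi1 hi2
      exact h i hi1 (by omega)
  rw [Polynomial.coeff_coe, sq_coeff] at h3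
  exact pow_eq_zero_iff (two_ne_zero) |>.1 h3

/-- first nonvanishing value. -/
theorem hh_first (E : K[X]) (h0 : E.coeff 0 = 1) (N : ℕ) (hN : 1 ≤ N)
    (h : ∀ n, 1 ≤ n → n < 2 * N → (E ^ 2).coeff n = 0) :
    hh E (N * 2) = E.coeff N ^ 2 := by
  have h1 := inv_next (hh_inv E h0) (sq_coeff_zero_one E h0) (n := N * 2) (by omega) (by
    intro i hi1 hi2
    rw [Polynomial.coeff_coe]
    exact h i hi1 (by omega))
  rw [Polynomial.coeff_coe, sq_coeff] at h1
  rw [hh]
  exact CharTwo.add_eq_zero.1 h1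

end two

end Pool.Agent.Helper99.CYC
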