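import Pool.Agent.Helper99.CYC.EndC

/-!
# Endgame: the plain value (Z)_1, and the recurrence of `h_n`
-/

set_option autoImplicit false
set_option linter.unusedSectionVars false

namespace Pool.Agent.Helper99.CYC

open Finset Polynomial

variable {K : Type} [Field K] [CharP K 2]

theorem one_add_mul_coeff' (Y : K[X]) (d : K) (n : ℕ) :
    ((1 + C d * X) * Y).coeff (n + 1) = Y.coeff (n + 1) + d * Y.coeff n := by
  rw [add_mul, one_mul, coeff_add, mul_assoc, coeff_C_mul, coeff_X_mul]

theorem zOne_value (E Y : K[X]) (h0 : E.coeff 0 = 1) (d : K) (hd : d ≠ 0) (w : ℕ) (hw : 1 ≤ w)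
    (hE : ∀ n, 1 ≤ n → n < w → E.coeff n = 0)
    (hY0 : ((1 + C d⁻¹ * X) * Y).coeff 0 = 1)
    (hY : ∀ n, 1 ≤ n → n < w → ((1 + C d⁻¹ * X) * Y).coeff n = 0)
    (hz : PowerSeries.coeff w (((E * (1 + C d * X) : K[X]) : PowerSeries K))⁻¹
      * Y.coeff (w - 1) = 0) : E.coeff w = d ^ w := by
  -- the coefficients of Y
  have hYc : ∀ n, n < w → Y.coeff n = d⁻¹ ^ n := by
    intro n
    induction n with
    | zero =>
      intro _
      rw [Polynomial.mul_coeff_zero] at hY0
      simpa using hY0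
    | succ n ih =>
      intro hn
      have h1 := hY (n + 1) (by omega) hn
      rw [one_add_mul_coeff', ih (by omega)] at h1
      rw [CharTwo.add_eq_zero.1 h1, pow_succ']
  have hYw : Y.coeff (w - 1) ≠ 0 := by
    rw [hYc _ (by omega)]
    exact pow_ne_zero _ (inv_ne_zero hd)
  set U := (((E * (1 + C d * X) : K[X]) : PowerSeries K))⁻¹ with hU
  have hUw : PowerSeries.coeff w U = 0 := by
    rcases mul_eq_zero.1 hz with h | h
    · exact h
    · exact absurd h hYw
  have hE0 : PowerSeries.constantCoeff (((E * (1 + C d * X) : K[X]) : PowerSeries K)) ≠ 0 := by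
    rw [← PowerSeries.coeff_zero_eq_constantCoeff_apply, Polynomial.coeff_coe,
      Polynomial.mul_coeff_zero, h0]
    simp
  have hEU : (((E * (1 + C d * X) : K[X]) : PowerSeries K)) * U = 1 :=
    PowerSeries.mul_inv_cancel _ hE0
  set V := ((1 + C d * X : K[X]) : PowerSeries K) * U with hV
  have hEV : (E : PowerSeries K) * V = 1 := by
    rw [hV, ← mul_assoc, ← Polynomial.coe_mul]
    exact hEU
  have hE1 : PowerSeries.coeff 0 (E : PowerSeries K) = 1 := by
    rw [Polynomial.coeff_coe, h0]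
  have hV0 : PowerSeries.coeff 0 V = 1 := by
    have h1 := congrArg (PowerSeries.coeff 0) hEV
    rw [PowerSeries.coeff_mul, PowerSeries.coeff_one, if_pos rfl] at h1
    simpa [h0] using h1
  have hVn : ∀ n, 1 ≤ n → n < w → PowerSeries.coeff n V = 0 := by
    intro n h1 h2
    refine inv_vanish hEV hE1 h1 ?_
    intro i hi1 hi2
    rw [Polynomial.coeff_coe]
    exact hE i hi1 (by omega)
  have hVw : PowerSeries.coeff w V + E.coeff w = 0 := by
    have h1 := inv_next hEV hE1 hw (by
      intro i hi1 hi2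
      rw [Polynomial.coeff_coe]
      exact hE i hi1 hi2)
    rwa [Polynomial.coeff_coe] at h1
  have hVU0 : PowerSeries.coeff 0 V = PowerSeries.coeff 0 U := by
    rw [hV]
    simp
  have hUn : ∀ n, n < w → PowerSeries.coeff n U = d ^ n := by
    intro n
    induction n with
    | zero =>
      intro _
      rw [← hVU0, hV0, pow_zero]
    | succ n ih =>
      intro hn
      have h1 := hVn (n + 1) (by omega) hn
      rw [hV, one_add_mul_coeff, ih (by omega)] at h1
      rw [CharTwo.add_eq_zero.1 h1, pow_succ']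
  obtain ⟨u, rfl⟩ : ∃ u, w = u + 1 := ⟨w - 1, by omega⟩
  have h1 : PowerSeries.coeff (u + 1) V = d ^ (u + 1) := by
    rw [hV, one_add_mul_coeff, hUw, hUn u (by omega), zero_add, pow_succ']
  rw [h1] at hVw
  exact (CharTwo.add_eq_zero.1 hVw).symm

theorem sq_coeff_odd (E : K[X]) (n : ℕ) (hn : n % 2 = 1) : (E ^ 2).coeff n = 0 := by
  have : Fact (Nat.Prime 2) := ⟨Nat.prime_two⟩
  rw [← Polynomial.map_frobenius_expand 2 E, Polynomial.coeff_map,
    Polynomial.coeff_expand (by norm_num), if_neg (by omega), map_zero]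

theorem hh_first' (E : K[X]) (h0 : E.coeff 0 = 1) (N : ℕ) (hN : 1 ≤ N)
    (h : ∀ n, 1 ≤ n → n < N → E.coeff n = 0) :
    hh E (N * 2) = E.coeff N ^ 2 := by
  refine hh_first E h0 N hN ?_
  intro n h1 h2
  rcases Nat.mod_two_eq_zero_or_one n with h3 | h3
  · obtain ⟨m, rfl⟩ : ∃ m, n = m * 2 := ⟨n / 2, by omega⟩
    rw [sq_coeff, h m (by omega) (by omega)]
    ring
  · exact sq_coeff_odd E n h3

/-- `E = (1 + c X^w) g(X^Q)`: the value of `h_{2 w a}`. -/
theorem hh_power (E g : K[X]) (c : K) (w Q : ℕ) (hw : 1 ≤ w) (hE : E = (1 + C c * X ^ w) * g)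
    (hg0 : g.coeff 0 = 1) (hg : ∀ n, 0 < n → n < Q → g.coeff n = 0) :
    ∀ a : ℕ, 2 * w * a < 2 * Q → hh E (2 * w * a) = (c ^ 2) ^ a := by
  have h0 : E.coeff 0 = 1 := by
    rw [hE, Polynomial.mul_coeff_zero, hg0]
    simp [show (0 : ℕ) ≠ w by omega]
  set hs := (((E ^ 2 : K[X]) : PowerSeries K))⁻¹ with hhs
  have hinv : ((E ^ 2 : K[X]) : PowerSeries K) * hs = 1 := hh_inv E h0
  have hE2 : E ^ 2 = (1 + C (c ^ 2) * X ^ (w * 2)) * g ^ 2 := by
    have : Fact (Nat.Prime 2) := ⟨Nat.prime_two⟩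
    rw [hE, mul_pow]
    congr 1
    rw [CharTwo.add_sq, one_pow, mul_pow, ← C_pow, ← pow_mul]
  set V := ((g ^ 2 : K[X]) : PowerSeries K) * hs with hV
  have hV1 : ((1 + C (c ^ 2) * X ^ (w * 2) : K[X]) : PowerSeries K) * V = 1 := by
    rw [hV, ← mul_assoc, ← Polynomial.coe_mul, ← hE2]
    exact hinv
  -- V and hs agree below 2Q
  have hg2 : ∀ n, 0 < n → n < 2 * Q → (g ^ 2).coeff n = 0 := by
    intro n h1 h2
    rcases Nat.mod_two_eq_zero_or_one n with h3 | h3
    · obtain ⟨m, rfl⟩ : ∃ m, n = m * 2 := ⟨n / 2, by omega⟩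
      rw [sq_coeff, hg m (by omega) (by omega)]
      ring
    · exact sq_coeff_odd g n h3
  have hg20 : (g ^ 2).coeff 0 = 1 := by
    rw [sq, Polynomial.mul_coeff_zero, hg0, mul_one]
  have hVh : ∀ n, n < 2 * Q → PowerSeries.coeff n V = PowerSeries.coeff n hs := by
    intro n hn
    rw [hV, PowerSeries.coeff_mul, Finset.sum_eq_single (0, n)]
    · simp [hg0]
    · rintro ⟨i, j⟩ hij hne
      rw [HasAntidiagonal.mem_antidiagonal] at hij
      simp only at hij
      have hi : 0 < i := by
        rcases Nat.eq_zero_or_pos i with h | h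
        · exfalso
          apply hne
          subst h
          simp only [zero_add] at hij
          rw [hij]
        · exact h
      show PowerSeries.coeff i ((g ^ 2 : K[X]) : PowerSeries K) * PowerSeries.coeff j hs = 0
      rw [Polynomial.coeff_coe, hg2 i hi (by omega), zero_mul]
    · intro hne
      exact absurd (HasAntidiagonal.mem_antidiagonal.2 (by simp)) hne
  intro a
  induction a with
  | zero =>
    intro _
    rw [mul_zero, pow_zero]
    exact inv_coeff_zero E h0
  | succ a ih =>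
    intro ha
    have hle : 2 * w * a < 2 * Q := by
      have : 2 * w * a ≤ 2 * w * (a + 1) := Nat.mul_le_mul_left _ (by omega)
      omega
    have ih' := ih hle
    have h1 := congrArg (PowerSeries.coeff (2 * w * a + w * 2)) hV1
    rw [Polynomial.coe_add, Polynomial.coe_one, Polynomial.coe_mul, Polynomial.coe_C,
      Polynomial.coe_pow, Polynomial.coe_X, add_mul, one_mul, map_add,
      mul_assoc (PowerSeries.C (c ^ 2)),
      PowerSeries.coeff_C_mul, PowerSeries.coeff_X_pow_mul, PowerSeries.coeff_one,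
      if_neg (by omega)] at h1
    have e1 : 2 * w * (a + 1) = 2 * w * a + w * 2 := by ring
    rw [hh] at ih' ⊢
    rw [e1]
    rw [e1] at ha
    rw [hVh _ ha, hVh _ hle, ih'] at h1
    rw [CharTwo.add_eq_zero.1 h1, pow_succ' (c ^ 2) a]

end Pool.Agent.Helper99.CYC
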